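import Pool.Agent.H42.EDB.CHNa

/-!
# Degrees of the minimal equations (row CHN of edb_modules, part b)
-/

set_option autoImplicit false

open MvPolynomial
open Pool.Agent.H18.HIT (Po)
open Pool.Agent.H8.TD (lc dg)

namespace Pool.Agent.H42.EDB

section deg

variable {k K : Type} [Field k] [Field K] [Algebra k K] {n : ℕ}

theorem finrank_insert (S : Set K) (c : K) (hc : IsIntegral (IntermediateField.adjoin k S) c) :
    dg k S = (minpoly (IntermediateField.adjoin k S) c).natDegree * dg k (insert c S) := by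
  rw [← Pool.Agent.H98.TD.pf_ADJ k K S c]
  unfold dg
  rw [← IntermediateField.adjoin.finrank hc]
  exact (Module.finrank_mul_finrank _ _ _).symm

theorem irr_Ph {M N : Matrix (Fin (n + 1)) (Fin (n + 1)) k} (h : M * N = 1) (h' : N * M = 1)
    {p : Polynomial (Po (n + 1) k)} (hp : Irreducible p) : Irreducible (Ph N p) :=
  (MulEquiv.irreducible_iff (Pe h h')).2 hp

/-- the relation between the degrees -/
theorem deg_rel {M N : Matrix (Fin (n + 1)) (Fin (n + 1)) k} (h : M * N = 1) (h' : N * M = 1)
    {μ : Fin (n + 1) → K} (hμ : AlgebraicIndependent k μ) {z : K}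
    {p : Polynomial (Po (n + 1) k)} (hp : Irreducible p) (hr : vl μ z p = 0)
    (hb : AlgebraicIndependent k
      (Fin.cons z (fun j : Fin n => lc (M j.succ) μ) : Fin (n + 1) → K)) :
    dg k (insert z (Set.range fun j : Fin n => lc (M j.succ) μ)) * p.natDegree =
      (Ph N p).natDegree * dg k (Set.range μ) := by
  have hroot : vl (Fin.cons z (fun j : Fin n => lc (M j.succ) μ) : Fin (n + 1) → K)
      (lc (M 0) μ) (Ph N p) = 0 := by
    rw [← vl_Ps, Ps_Ph h', hr]
  obtain ⟨i1, e1⟩ := min_deg hb (irr_Ph h h' hp) hroot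
  obtain ⟨i2, e2⟩ := min_deg hμ hp hr
  have h1 := finrank_insert (k := k) _ _ i1
  have h2 := finrank_insert (k := k) _ _ i2
  rw [e1, Fin.range_cons] at h1
  rw [e2] at h2
  have h3 : dg k (insert (lc (M 0) μ) (insert z
      (Set.range fun j : Fin n => lc (M j.succ) μ))) = dg k (insert z (Set.range μ)) := by
    unfold dg
    rw [adj_eq h']
  rw [h1, h2, h3]
  ring

/-- independence -/
theorem ind_of_pos {M N : Matrix (Fin (n + 1)) (Fin (n + 1)) k} (h : M * N = 1)
    {μ : Fin (n + 1) → K} (hμ : AlgebraicIndependent k μ) {z : K}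
    {p : Polynomial (Po (n + 1) k)} (hp : Irreducible p) (hr : vl μ z p = 0)
    (hq : (Ph N p).natDegree ≠ 0) : AlgebraicIndependent k
      (Fin.cons z (fun j : Fin n => lc (M j.succ) μ) : Fin (n + 1) → K) := by
  rw [algebraicIndependent_iff]
  intro g hg
  by_contra hg0
  have h1 : vl μ z (Ps M (Polynomial.C g)) = 0 := by
    rw [vl_Ps, vl_C, hg]
  have h2 : Ph N p ∣ Polynomial.C g := by
    have h3 := map_dvd (Ph N) (dvd_ker hμ hp hr h1)
    rwa [Ph_Ps h] at h3
  have h3 := Polynomial.natDegree_le_of_dvd h2 (Polynomial.C_ne_zero.2 hg0)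
  rw [Polynomial.natDegree_C] at h3
  exact hq (Nat.le_zero.1 h3)

theorem deg_Ph (N : Matrix (Fin (n + 1)) (Fin (n + 1)) k) (p : Polynomial (Po (n + 1) k))
    {Y : ℕ} (hY : ∀ j, (p.coeff j).totalDegree ≤ Y) : (Ph N p).natDegree ≤ Y := by
  unfold Ph
  rw [Polynomial.coe_eval₂RingHom, Polynomial.eval₂_eq_sum_range]
  refine Polynomial.natDegree_sum_le_of_forall_le _ _ fun j _ => ?_
  refine Polynomial.natDegree_mul_le.trans ?_
  rw [← Polynomial.C_pow, Polynomial.natDegree_C, add_zero]
  change (aeval (fun i => Polynomial.C (C (N i 0)) * Polynomial.X +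
      Polynomial.C (∑ j : Fin n, C (N i j.succ) * X j.succ) :
      Fin (n + 1) → Polynomial (Po (n + 1) k)) (p.coeff j)).natDegree ≤ Y
  rw [← MvPolynomial.aeval_map_algebraMap (Po (n + 1) k)]
  have h1 := MvPolynomial.aeval_natDegree_le (m := Y)
    (MvPolynomial.map (algebraMap k (Po (n + 1) k)) (p.coeff j))
    ((Finset.sup_mono (MvPolynomial.support_map_subset _ _)).trans (hY j))
    (fun i => Polynomial.C (C (N i 0)) * Polynomial.X +
      Polynomial.C (∑ j : Fin n, C (N i j.succ) * X j.succ) :
      Fin (n + 1) → Polynomial (Po (n + 1) k)) (n := 1)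
    (fun i => by
      refine (Polynomial.natDegree_add_le _ _).trans (max_le ?_ ?_)
      · exact (Polynomial.natDegree_C_mul_le _ _).trans Polynomial.natDegree_X_le
      · rw [Polynomial.natDegree_C]
        exact Nat.zero_le _)
  rwa [mul_one] at h1

/-- the top coefficient -/
theorem deg_top [Infinite k] (N : Matrix (Fin (n + 1)) (Fin (n + 1)) k)
    (p : Polynomial (Po (n + 1) k)) {Y : ℕ} (hlt : (Ph N p).natDegree < Y) (j : ℕ) :
    eval (fun i => N i 0) (homogeneousComponent Y (p.coeff j)) = 0 := by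
  classical
  have key : ∀ ζ : k, ∑ j ∈ Finset.range (p.natDegree + 1),
      eval (fun i => N i 0) (homogeneousComponent Y (p.coeff j)) * ζ ^ j = 0 := by
    intro ζ
    have h1 : Polynomial.mapRingHom (eval (Fin.cons ζ 0 : Fin (n + 1) → k)) (Ph N p) =
        ∑ j ∈ Finset.range (p.natDegree + 1),
          (Pool.Agent.H39.TD.tt (p.coeff j)).map (eval fun i => N i 0) *
            (Polynomial.C ζ) ^ j := by
      unfold Ph
      rw [Polynomial.coe_eval₂RingHom, Polynomial.hom_eval₂, Polynomial.eval₂_eq_sum_range]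
      have e1 : Polynomial.mapRingHom (eval (Fin.cons ζ 0 : Fin (n + 1) → k))
          (Polynomial.C (X 0)) = Polynomial.C ζ := by
        rw [Polynomial.coe_mapRingHom, Polynomial.map_C, eval_X, Fin.cons_zero]
      have e2 : (Polynomial.mapRingHom (eval (Fin.cons ζ 0 : Fin (n + 1) → k))).comp
          (aeval (fun i => Polynomial.C (C (N i 0)) * Polynomial.X +
            Polynomial.C (∑ j : Fin n, C (N i j.succ) * X j.succ)) :
            Po (n + 1) k →ₐ[k] Polynomial (Po (n + 1) k)).toRingHom =
          (Polynomial.mapRingHom (eval fun i => N i 0)).comp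
            (Pool.Agent.H39.TD.tt (K := k) (σ := Fin (n + 1))).toRingHom := by
        apply MvPolynomial.ringHom_ext
        · intro c
          change Polynomial.mapRingHom _ (aeval _ (C c)) =
            Polynomial.mapRingHom _ (Pool.Agent.H39.TD.tt (C c))
          unfold Pool.Agent.H39.TD.tt
          rw [aeval_CC, aeval_CC, Polynomial.coe_mapRingHom, Polynomial.coe_mapRingHom,
            Polynomial.map_C, Polynomial.map_C, eval_C, eval_C]
        · intro i
          change Polynomial.mapRingHom _ (aeval _ (X i)) =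
            Polynomial.mapRingHom _ (Pool.Agent.H39.TD.tt (X i))
          unfold Pool.Agent.H39.TD.tt
          rw [aeval_X, aeval_X, Polynomial.coe_mapRingHom, Polynomial.coe_mapRingHom,
            Polynomial.map_add, Polynomial.map_mul, Polynomial.map_mul, Polynomial.map_C,
            Polynomial.map_X, Polynomial.map_C, Polynomial.map_C, Polynomial.map_X, eval_C,
            eval_X, map_sum]
          have e3 : ∀ j : Fin n, eval (Fin.cons ζ 0 : Fin (n + 1) → k)
              (C (N i j.succ) * X j.succ) = 0 := by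
            intro j
            rw [map_mul, eval_X, Fin.cons_succ, Pi.zero_apply, mul_zero]
          rw [Finset.sum_congr rfl fun j _ => e3 j, Finset.sum_const_zero, Polynomial.C_0,
            add_zero]
      rw [e1, e2]
      rfl
    have h2 : (Polynomial.mapRingHom (eval (Fin.cons ζ 0 : Fin (n + 1) → k))
        (Ph N p)).coeff Y = 0 := by
      rw [Polynomial.coe_mapRingHom, Polynomial.coeff_map,
        Polynomial.coeff_eq_zero_of_natDegree_lt hlt, map_zero]
    rw [h1, Polynomial.finsetSum_coeff] at h2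
    rw [← h2]
    refine Finset.sum_congr rfl fun j _ => ?_
    rw [← Polynomial.C_pow, Polynomial.coeff_mul_C, Polynomial.coeff_map,
      Pool.Agent.H39.TD.coeff_tt]
  have h3 : ∑ j ∈ Finset.range (p.natDegree + 1),
      Polynomial.C (eval (fun i => N i 0) (homogeneousComponent Y (p.coeff j))) *
        Polynomial.X ^ j = 0 := by
    apply Polynomial.funext
    intro ζ
    rw [Polynomial.eval_finsetSum, Polynomial.eval_zero, ← key ζ]
    refine Finset.sum_congr rfl fun j _ => ?_
    rw [Polynomial.eval_mul, Polynomial.eval_C, Polynomial.eval_pow, Polynomial.eval_X]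
  have h4 := congrArg (fun q => Polynomial.coeff q j) h3
  simp only [Polynomial.finsetSum_coeff, Polynomial.coeff_C_mul_X_pow, Polynomial.coeff_zero,
    Finset.sum_ite_eq] at h4
  by_cases hj : j ∈ Finset.range (p.natDegree + 1)
  · rwa [if_pos hj] at h4
  · rw [Finset.mem_range] at hj
    rw [Polynomial.coeff_eq_zero_of_natDegree_lt (by omega), map_zero, map_zero]

/-- a matrix with given lower rows -/
theorem exists_rows {s' : Fin n → Fin (n + 1) → k} (h : LinearIndependent k s') :
    ∃ M N : Matrix (Fin (n + 1)) (Fin (n + 1)) k, M * N = 1 ∧ N * M = 1 ∧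
      ∀ j : Fin n, M j.succ = s' j := by
  obtain ⟨s, hs⟩ : ∃ s : Fin (n + 1) → k, s ∉ Submodule.span k (Set.range s') := by
    by_contra hcon
    push Not at hcon
    have h1 : Submodule.span k (Set.range s') = ⊤ :=
      Submodule.eq_top_iff'.2 hcon
    have h2 := finrank_range_le_card (R := k) s'
    unfold Set.finrank at h2
    rw [h1, finrank_top, Module.finrank_fin_fun, Fintype.card_fin] at h2
    omega
  have h1 : LinearIndependent k (Fin.cons s s' : Fin (n + 1) → Fin (n + 1) → k) :=
    linearIndependent_finCons.2 ⟨h, hs⟩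
  have h2 : IsUnit (Matrix.det (Matrix.of (Fin.cons s s' : Fin (n + 1) → Fin (n + 1) → k))) := by
    rw [← Matrix.isUnit_iff_isUnit_det, ← Matrix.linearIndependent_rows_iff_isUnit]
    exact h1
  exact ⟨Matrix.of (Fin.cons s s'), (Matrix.of (Fin.cons s s'))⁻¹,
    Matrix.mul_nonsing_inv _ h2, Matrix.nonsing_inv_mul _ h2, fun j => rfl⟩

/-- a matrix with given first column -/
theorem exists_col {w : Fin (n + 1) → k} (h : w ≠ 0) :
    ∃ M N : Matrix (Fin (n + 1)) (Fin (n + 1)) k, M * N = 1 ∧ N * M = 1 ∧
      ∀ i, N i 0 = w i := by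
  classical
  obtain ⟨i0, hi0⟩ := Function.ne_iff.1 h
  obtain ⟨N', hN'⟩ : ∃ N' : Matrix (Fin (n + 1)) (Fin (n + 1)) k,
      N' = (1 : Matrix (Fin (n + 1)) (Fin (n + 1)) k).updateCol i0 w := ⟨_, rfl⟩
  have h1 : N'.det = w i0 := by
    rw [hN', ← Matrix.cramer_apply, Matrix.cramer_one]
    rfl
  obtain ⟨N, hN⟩ : ∃ N : Matrix (Fin (n + 1)) (Fin (n + 1)) k,
      N = N'.submatrix id (Equiv.swap 0 i0) := ⟨_, rfl⟩
  have h2 : IsUnit N.det := by
    rw [hN, Matrix.det_permute', h1]
    refine IsUnit.mul ?_ (isUnit_iff_ne_zero.2 hi0)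
    exact ((Equiv.Perm.sign (Equiv.swap 0 i0)).isUnit.map (Int.castRingHom k))
  refine ⟨N⁻¹, N, Matrix.nonsing_inv_mul _ h2, Matrix.mul_nonsing_inv _ h2, fun i => ?_⟩
  rw [hN, Matrix.submatrix_apply, Equiv.swap_apply_left, id, hN', Matrix.updateCol_self]

/-- the top form -/
theorem top_ne {m : ℕ} {f : Po m k} {Y : ℕ} (hY : f.totalDegree = Y) (h0 : f ≠ 0) :
    homogeneousComponent Y f ≠ 0 := by
  classical
  obtain ⟨s, hs, hs'⟩ := Finset.exists_mem_eq_sup f.support (support_nonempty.2 h0)
    (fun s => s.sum fun _ e => e)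
  have h1 : s.degree = Y := by
    rw [← hY]
    exact hs'.symm
  intro h
  have h2 := congrArg (coeff s) h
  rw [coeff_homogeneousComponent, if_pos h1, coeff_zero] at h2
  exact (mem_support_iff.1 hs) h2

/-- the first inequality -/
theorem deg_ineq [Infinite k] (htr : Algebra.trdeg k K = (n + 1 : ℕ)) {μ : Fin (n + 1) → K}
    (halg : Algebra.IsAlgebraic (IntermediateField.adjoin k (Set.range μ)) K) {z : K}
    {p : Polynomial (Po (n + 1) k)} (hp : Irreducible p) (hr : vl μ z p = 0) {Y : ℕ}
    (hY : ∀ j, (p.coeff j).totalDegree ≤ Y) (s' : Fin n → Fin (n + 1) → k) :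
    dg k (insert z (Set.range fun j => lc (s' j) μ)) * p.natDegree ≤
      Y * dg k (Set.range μ) := by
  classical
  by_cases h0 : dg k (insert z (Set.range fun j => lc (s' j) μ)) = 0
  · rw [h0, zero_mul]
    exact Nat.zero_le _
  have hμ := (tb_gen μ halg htr).1
  have hfin : Module.Finite (IntermediateField.adjoin k
      (insert z (Set.range fun j => lc (s' j) μ))) K :=
    Module.finite_of_finrank_pos (Nat.pos_of_ne_zero h0)
  have halgκ : Algebra.IsAlgebraic (IntermediateField.adjoin k
      (insert z (Set.range fun j => lc (s' j) μ))) K := inferInstance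
  have htb : IsTranscendenceBasis k
      (Fin.cons z (fun j => lc (s' j) μ) : Fin (n + 1) → K) := by
    apply tb_gen _ _ htr
    rw [Fin.range_cons]
    exact halgκ
  have hli : LinearIndependent k s' := by
    have h1 := htb.1.linearIndependent
    have h2 : LinearIndependent k (fun i : Fin n =>
        (Fin.cons z (fun j => lc (s' j) μ) : Fin (n + 1) → K) i.succ) :=
      h1.comp Fin.succ (Fin.succ_injective n)
    have hf : (fun i : Fin n => (Fin.cons z (fun j => lc (s' j) μ) : Fin (n + 1) → K) i.succ) =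
        (Fintype.linearCombination k μ) ∘ s' := by
      funext i
      rw [Fin.cons_succ]
      exact (Fintype.linearCombination_apply k μ (s' i)).symm
    rw [hf] at h2
    exact LinearIndependent.of_comp _ h2
  obtain ⟨M, N, hMN, hNM, hM⟩ := exists_rows hli
  have e1 : (fun j => lc (s' j) μ) = fun j : Fin n => lc (M j.succ) μ := by
    funext j
    rw [hM]
  rw [e1] at htb ⊢
  rw [deg_rel hMN hNM hμ hp hr htb.1]
  exact Nat.mul_le_mul_right _ (deg_Ph N p hY)

/-- the second inequality -/
theorem deg_ineq' [Infinite k] {μ : Fin (n + 1) → K} (hμ : AlgebraicIndependent k μ) {z : K}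
    {p : Polynomial (Po (n + 1) k)} (hp : Irreducible p) (hr : vl μ z p = 0) {Y : ℕ}
    {j1 : ℕ} (hj : (p.coeff j1).totalDegree = Y) (hj0 : p.coeff j1 ≠ 0) :
    ∃ s' : Fin n → Fin (n + 1) → k, Y * dg k (Set.range μ) ≤
      dg k (insert z (Set.range fun j => lc (s' j) μ)) * p.natDegree := by
  classical
  by_cases hY : Y = 0
  · refine ⟨0, ?_⟩
    rw [hY, zero_mul]
    exact Nat.zero_le _
  obtain ⟨w, hw⟩ : ∃ w : Fin (n + 1) → k,
      eval w (homogeneousComponent Y (p.coeff j1)) ≠ 0 := by
    by_contra hcon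
    push Not at hcon
    apply top_ne hj hj0
    apply MvPolynomial.funext
    intro w
    rw [hcon w, map_zero]
  have hw0 : w ≠ 0 := by
    rintro rfl
    apply hw
    rw [eval_zero, constantCoeff_eq]
    exact (homogeneousComponent_isHomogeneous Y (p.coeff j1)).coeff_eq_zero (by
      rw [map_zero]
      exact fun h => hY h.symm)
  obtain ⟨M, N, hMN, hNM, hN⟩ := exists_col hw0
  have hq : Y ≤ (Ph N p).natDegree := by
    by_contra hlt
    push Not at hlt
    apply hw
    have h1 := deg_top N p hlt j1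
    have h2 : (fun i => N i 0) = w := funext hN
    rwa [h2] at h1
  have hb := ind_of_pos hMN hμ hp hr (by omega)
  refine ⟨fun j => M j.succ, ?_⟩
  have h3 := deg_rel hMN hNM hμ hp hr hb
  rw [h3]
  exact Nat.mul_le_mul_right _ hq

end deg

end Pool.Agent.H42.EDB
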