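import Pool.Agent.H18.EDB.Targets2
import Pool.Agent.H42.EDB.CHNb

/-!
# The minimal equation of a function over the functions of a map (row CHN of edb_modules; after
`Pool.Agent.H4.TXB.CHY`)
-/

set_option autoImplicit false

open MvPolynomial
open Pool.Agent.H12.ZD (pmap)
open Pool.Agent.H18.HIT Pool.Agent.H18.HX Pool.Agent.H18.VZ
open Pool.Agent.H8.ZA (HFam Const NA)
open Pool.Agent.H8.TD (lc dg Cop)
open Pool.Agent.H8.TX (hn)
open Pool.Agent.H2.ED
open Pool.Agent.H18.TE (lg Gc)
open Pool.Agent.H18.TXB (avn)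
open Pool.Agent.H18.EDB

namespace Pool.Agent.H42.EDB

section hom

variable {k : Type} [Field k] {n : ℕ}

/-- dehomogenization -/
noncomputable def dh : Po (n + 1) k →ₐ[k] Po n k :=
  aeval (Fin.cons 1 (fun i : Fin n => X i) : Fin (n + 1) → Po n k)

/-- the affine coordinates of a point -/
noncomputable def aff (y : Fin (n + 1) → k) : Fin n → k := fun i => y i.succ / y 0

theorem eval_dh (P : Po (n + 1) k) (w : Fin n → k) :
    eval w (dh P) = eval (Fin.cons 1 w : Fin (n + 1) → k) P := by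
  have h : ((aeval w : Po n k →ₐ[k] k).comp dh) = aeval (Fin.cons 1 w : Fin (n + 1) → k) := by
    apply algHom_ext
    intro i
    rw [AlgHom.comp_apply, dh, aeval_X, aeval_X]
    refine Fin.cases ?_ (fun j => ?_) i
    · rw [Fin.cons_zero, Fin.cons_zero, map_one]
    · rw [Fin.cons_succ, Fin.cons_succ, aeval_X]
  exact DFunLike.congr_fun h P

theorem eval_smul {N : ℕ} {P : Po N k} {D : ℕ} (hP : P.IsHomogeneous D) (t : k)
    (y : Fin N → k) : eval (fun i => t * y i) P = t ^ D * eval y P := by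
  rw [eval_eq', eval_eq', Finset.mul_sum]
  apply Finset.sum_congr rfl
  intro m hm
  have h1 : ∑ i, m i = D := by
    have h2 : m.degree = D := by
      by_contra hcon
      exact (mem_support_iff.mp hm) (hP.coeff_eq_zero hcon)
    rw [Finsupp.degree_eq_sum] at h2
    exact h2
  have h3 : ∏ i, (t * y i) ^ m i = t ^ D * ∏ i, y i ^ m i := by
    rw [← h1, ← Finset.prod_pow_eq_pow_sum, ← Finset.prod_mul_distrib]
    exact Finset.prod_congr rfl fun i _ => mul_pow _ _ _
  rw [h3]
  ring

theorem eval_aff {P : Po (n + 1) k} {D : ℕ} (hP : P.IsHomogeneous D) {y : Fin (n + 1) → k} (hy : y 0 ≠ 0) :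
    eval y P = y 0 ^ D * eval (aff y) (dh P) := by
  rw [eval_dh, ← eval_smul hP]
  congr 1
  congr 1
  funext i
  refine Fin.cases ?_ (fun j => ?_) i
  · rw [Fin.cons_zero, mul_one]
  · rw [Fin.cons_succ, aff]
    field_simp

theorem totalDegree_dh_le (P : Po (n + 1) k) : (dh P).totalDegree ≤ P.totalDegree := by
  have h : ∀ i : Fin (n + 1), ((Fin.cons 1 (fun i : Fin n => X i) : Fin (n + 1) → Po n k) i).totalDegree ≤
      1 := by
    intro i
    refine Fin.cases ?_ (fun j => ?_) i
    · rw [Fin.cons_zero, totalDegree_one]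
      exact Nat.zero_le _
    · rw [Fin.cons_succ, totalDegree_X]
  rw [dh, aeval_def, eval₂_eq']
  apply totalDegree_finsetSum_le
  intro m hm
  refine (totalDegree_mul _ _).trans ?_
  have h1 : (algebraMap k (Po n k) (coeff m P)).totalDegree = 0 := totalDegree_C _
  rw [h1, zero_add]
  refine (totalDegree_finsetProd _ _).trans ?_
  refine (Finset.sum_le_sum fun i _ => (totalDegree_pow _ _).trans
    (Nat.mul_le_mul_left _ (h i))).trans ?_
  simp only [mul_one]
  have h2 := le_totalDegree hm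
  rwa [Finsupp.sum_fintype _ _ (fun _ => rfl)] at h2

/-- homogenization with degree `d` -/
noncomputable def hz (d : ℕ) (p : Po n k) : Po (n + 1) k :=
  ∑ m ∈ p.support, C (coeff m p) * X 0 ^ (d - ∑ i : Fin n, m i) * ∏ i : Fin n, X i.succ ^ m i

theorem sum_le {p : Po n k} {d : ℕ} (hp : p.totalDegree ≤ d) {m : Fin n →₀ ℕ}
    (hm : m ∈ p.support) : ∑ i : Fin n, m i ≤ d := by
  have h1 := (le_totalDegree hm).trans hp
  rwa [Finsupp.sum_fintype _ _ (fun _ => rfl)] at h1

theorem hz_hom {p : Po n k} {d : ℕ} (hp : p.totalDegree ≤ d) : (hz d p).IsHomogeneous d := by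
  apply IsHomogeneous.sum
  intro m hm
  have h1 : (∏ i : Fin n, (X i.succ : Po (n + 1) k) ^ m i).IsHomogeneous (∑ i : Fin n, m i) := by
    apply IsHomogeneous.prod
    intro i _
    have h2 := (isHomogeneous_X k i.succ).pow (m i)
    rwa [one_mul] at h2
  have h3 : ((C (coeff m p) : Po (n + 1) k) * X 0 ^ (d - ∑ i : Fin n, m i)).IsHomogeneous
      (d - ∑ i : Fin n, m i) := by
    have h4 := (isHomogeneous_C (Fin (n + 1)) (coeff m p)).mul ((isHomogeneous_X k (0 : Fin (n + 1))).pow
      (d - ∑ i : Fin n, m i))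
    rwa [one_mul, zero_add] at h4
  have h5 := h3.mul h1
  rwa [Nat.sub_add_cancel (sum_le hp hm)] at h5

theorem eval_hz {p : Po n k} {d : ℕ} (hp : p.totalDegree ≤ d) {y : Fin (n + 1) → k} (hy : y 0 ≠ 0) :
    eval y (hz d p) = y 0 ^ d * eval (aff y) p := by
  rw [hz, map_sum, eval_eq', Finset.mul_sum]
  apply Finset.sum_congr rfl
  intro m hm
  rw [map_mul, map_mul, map_pow, map_prod, eval_C, eval_X]
  have e1 : ∏ i : Fin n, (eval y) ((X i.succ : Po (n + 1) k) ^ m i) = ∏ i : Fin n, y i.succ ^ m i := by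
    apply Finset.prod_congr rfl
    intro i _
    rw [map_pow, eval_X]
  have e2 : ∏ i : Fin n, aff y i ^ m i = (∏ i : Fin n, y i.succ ^ m i) /
      y 0 ^ (∑ i : Fin n, m i) := by
    rw [← Finset.prod_pow_eq_pow_sum, ← Finset.prod_div_distrib]
    apply Finset.prod_congr rfl
    intro i _
    exact div_pow _ _ _
  rw [e1, e2]
  have e3 : y 0 ^ d = y 0 ^ (d - ∑ i : Fin n, m i) * y 0 ^ (∑ i : Fin n, m i) := by
    rw [← pow_add, Nat.sub_add_cancel (sum_le hp hm)]
  rw [e3]
  have h4 : y 0 ^ (∑ i : Fin n, m i) ≠ 0 := pow_ne_zero _ hy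
  field_simp

theorem aff_cons (w : Fin n → k) : aff (Fin.cons 1 w : Fin (n + 1) → k) = w := by
  funext i
  rw [aff, Fin.cons_succ, Fin.cons_zero, div_one]

theorem dh_hz [Infinite k] {p : Po n k} {d : ℕ} (hp : p.totalDegree ≤ d) : dh (hz d p) = p := by
  apply MvPolynomial.funext
  intro w
  rw [eval_dh, eval_hz hp (by rw [Fin.cons_zero]; exact one_ne_zero), Fin.cons_zero, one_pow,
    one_mul, aff_cons]

/-- polynomials in `T` over the forms as polynomials over the field `k(T)` -/
noncomputable def te : Polynomial (Po (n + 1) k) →+*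
    MvPolynomial (Fin (n + 1)) (FractionRing (Polynomial k)) :=
  Polynomial.eval₂RingHom
    (MvPolynomial.map ((algebraMap (Polynomial k) (FractionRing (Polynomial k))).comp
      Polynomial.C))
    (MvPolynomial.C (algebraMap (Polynomial k) (FractionRing (Polynomial k)) Polynomial.X))

theorem coeff_te (A : Polynomial (Po (n + 1) k)) (s : Fin (n + 1) →₀ ℕ) :
    ∃ q : Polynomial k, coeff s (te A) = algebraMap (Polynomial k) _ q ∧
      ∀ j, q.coeff j = coeff s (A.coeff j) := by
  induction A using Polynomial.induction_on' with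
  | add A B hA hB =>
    obtain ⟨q, hq, hq'⟩ := hA
    obtain ⟨r, hr, hr'⟩ := hB
    refine ⟨q + r, ?_, fun j => ?_⟩
    · rw [map_add, coeff_add, hq, hr, map_add]
    · rw [Polynomial.coeff_add, hq', hr', Polynomial.coeff_add, coeff_add]
  | monomial n f =>
    refine ⟨Polynomial.C (coeff s f) * Polynomial.X ^ n, ?_, fun j => ?_⟩
    · unfold te
      rw [Polynomial.coe_eval₂RingHom, Polynomial.eval₂_monomial, ← map_pow, mul_comm,
        coeff_C_mul, coeff_map, RingHom.comp_apply, ← map_pow, ← map_mul, mul_comm]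
    · rw [Polynomial.coeff_C_mul_X_pow, Polynomial.coeff_monomial]
      by_cases h : n = j
      · rw [if_pos h, if_pos h.symm]
      · rw [if_neg h, if_neg (Ne.symm h), coeff_zero]

theorem te_hom {A : Polynomial (Po (n + 1) k)} {a : ℕ} (h : ∀ j, (A.coeff j).IsHomogeneous a) :
    (te A).IsHomogeneous a := by
  intro s hs
  obtain ⟨q, hq, hq'⟩ := coeff_te A s
  have hq0 : q ≠ 0 := by
    rintro rfl
    exact hs (by rw [hq, map_zero])
  obtain ⟨j, hj⟩ : ∃ j, q.coeff j ≠ 0 := by
    by_contra hcon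
    push Not at hcon
    exact hq0 (Polynomial.ext fun j => by rw [hcon j, Polynomial.coeff_zero])
  rw [hq'] at hj
  exact h j hj

theorem hom_te {A : Polynomial (Po (n + 1) k)} {a : ℕ} (h : (te A).IsHomogeneous a) (j : ℕ) :
    (A.coeff j).IsHomogeneous a := by
  intro s hs
  obtain ⟨q, hq, hq'⟩ := coeff_te A s
  apply h
  rw [hq]
  intro h0
  rw [map_eq_zero_iff _ (IsFractionRing.injective (Polynomial k)
    (FractionRing (Polynomial k)))] at h0
  apply hs
  rw [← hq', h0, Polynomial.coeff_zero]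

theorem te_ne {A : Polynomial (Po (n + 1) k)} (h : A ≠ 0) : te A ≠ 0 := by
  intro h0
  apply h
  apply Polynomial.ext
  intro j
  apply MvPolynomial.ext
  intro s
  obtain ⟨q, hq, hq'⟩ := coeff_te A s
  rw [h0, coeff_zero] at hq
  have h1 : q = 0 := (map_eq_zero_iff _ (IsFractionRing.injective (Polynomial k)
    (FractionRing (Polynomial k)))).1 hq.symm
  rw [← hq', h1, Polynomial.coeff_zero, Polynomial.coeff_zero, coeff_zero]

/-- a form is determined by its dehomogenization -/
theorem form_of_dh [Infinite k] {Q : Po (n + 1) k} {b : ℕ} (hb : Q.IsHomogeneous b) {c : k}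
    (hc : dh Q = C c) : Q = C c * X 0 ^ b := by
  have h1 : (Q - C c * X 0 ^ b) * X 0 = 0 := by
    apply MvPolynomial.funext
    intro y
    rw [map_mul, map_sub, map_mul, map_pow, eval_X, eval_C, map_zero]
    by_cases hy : y 0 = 0
    · rw [hy, mul_zero]
    · rw [eval_aff hb hy, hc, eval_C]
      ring
  have h2 := (mul_eq_zero.1 h1).resolve_right (X_ne_zero 0)
  exact sub_eq_zero.1 h2

/-- a homogenization of the exact degree is not divisible by `X 0` -/
theorem not_X_dvd [Infinite k] {f : Po n k} (h0 : f ≠ 0) :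
    ¬ (X 0 : Po (n + 1) k) ∣ hz f.totalDegree f := by
  rintro ⟨t, ht⟩
  have hdh : dh (hz f.totalDegree f) = f := dh_hz le_rfl
  have hP0 : hz f.totalDegree f ≠ 0 := by
    intro h
    apply h0
    rw [← hdh, h, map_zero]
  have ht0 : t ≠ 0 := by
    rintro rfl
    exact hP0 (by rw [ht, mul_zero])
  obtain ⟨b', c', hbc, hb', hc'⟩ := Pool.Agent.H39.TD.homog_mul (by
    rw [← ht]
    exact hz_hom le_rfl) (X_ne_zero (R := k) (0 : Fin (n + 1))) ht0
  have h1 : b' = 1 := hb'.inj_right (isHomogeneous_X k 0) (X_ne_zero 0)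
  have h2 : f = dh t := by
    conv_lhs => rw [← hdh, ht, map_mul]
    have h3 : dh (X 0 : Po (n + 1) k) = 1 := by
      unfold dh
      rw [aeval_X, Fin.cons_zero]
    rw [h3, one_mul]
  have h3 : f.totalDegree ≤ c' := by
    conv_lhs => rw [h2]
    exact (totalDegree_dh_le t).trans hc'.totalDegree_le
  omega

/-- the unit factor -/
theorem unit_factor [Infinite k] {A B : Polynomial (Po (n + 1) k)} {a : ℕ}
    (hA : ∀ j, (A.coeff j).IsHomogeneous a)
    (hu : IsUnit (A.map (dh : Po (n + 1) k →ₐ[k] Po n k).toRingHom)) {j0 : ℕ}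
    (hX : ¬ (X 0 : Po (n + 1) k) ∣ (A * B).coeff j0) : IsUnit A := by
  rw [Polynomial.isUnit_iff] at hu
  obtain ⟨r, hr, hr'⟩ := hu
  rw [MvPolynomial.isUnit_iff_eq_C_of_isReduced] at hr
  obtain ⟨c, hc, rfl⟩ := hr
  have hc0 : c ≠ 0 := hc.ne_zero
  have hcoef : ∀ j, dh (A.coeff j) = (Polynomial.C (C c : Po n k)).coeff j := by
    intro j
    rw [hr', Polynomial.coeff_map]
    rfl
  have hA0 : A.coeff 0 = C c * X 0 ^ a := by
    apply form_of_dh (hA 0)
    rw [hcoef, Polynomial.coeff_C_zero]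
  have hAj : ∀ j, j ≠ 0 → A.coeff j = 0 := by
    intro j hj
    have h1 : dh (A.coeff j) = C 0 := by
      rw [hcoef, Polynomial.coeff_C_of_ne_zero hj, C_0]
    rw [form_of_dh (hA j) h1, C_0, zero_mul]
  have hAC : A = Polynomial.C (C c * X 0 ^ a) := by
    apply Polynomial.ext
    intro j
    by_cases hj : j = 0
    · rw [hj, Polynomial.coeff_C_zero, hA0]
    · rw [hAj j hj, Polynomial.coeff_C_of_ne_zero hj]
  have ha : a = 0 := by
    by_contra ha
    apply hX
    rw [hAC, Polynomial.coeff_C_mul]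
    refine Dvd.dvd.mul_right ?_ _
    exact Dvd.dvd.mul_left (dvd_pow_self _ ha) _
  rw [hAC, ha, pow_zero, mul_one]
  exact ((isUnit_iff_ne_zero.2 hc0).map C).map Polynomial.C

/-- the homogenization of an irreducible polynomial is irreducible -/
theorem irr_hz [Infinite k] {P : Polynomial (Po (n + 1) k)} {Y : ℕ}
    (hP : ∀ j, (P.coeff j).IsHomogeneous Y)
    (hi : Irreducible (P.map (dh : Po (n + 1) k →ₐ[k] Po n k).toRingHom)) {j0 : ℕ}
    (hX : ¬ (X 0 : Po (n + 1) k) ∣ P.coeff j0) : Irreducible P := by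
  have hP0 : P ≠ 0 := by
    rintro rfl
    apply hi.ne_zero
    rw [Polynomial.map_zero]
  refine ⟨fun hu => hi.not_isUnit (hu.map (Polynomial.mapRingHom _)), ?_⟩
  intro A B hAB
  have hA0 : A ≠ 0 := by
    rintro rfl
    exact hP0 (by rw [hAB, zero_mul])
  have hB0 : B ≠ 0 := by
    rintro rfl
    exact hP0 (by rw [hAB, mul_zero])
  obtain ⟨a, b, -, ha, hb⟩ := Pool.Agent.H39.TD.homog_mul (p := te A) (q := te B) (a := Y)
    (by rw [← map_mul, ← hAB]; exact te_hom hP) (te_ne hA0) (te_ne hB0)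
  rw [hAB, Polynomial.map_mul] at hi
  rcases hi.isUnit_or_isUnit rfl with h | h
  · left
    exact unit_factor (B := B) (fun j => hom_te ha j) h (by rw [← hAB]; exact hX)
  · right
    exact unit_factor (B := A) (fun j => hom_te hb j) h (by rw [mul_comm, ← hAB]; exact hX)

theorem aeval_dh {K : Type} [Field K] [Algebra k K] (μ : Fin n → K) (Q : Po (n + 1) k) :
    aeval (Fin.cons 1 μ : Fin (n + 1) → K) Q = aeval μ (dh Q) := by
  have h : (aeval (Fin.cons 1 μ : Fin (n + 1) → K) : Po (n + 1) k →ₐ[k] K) = (aeval μ).comp dh := by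
    apply MvPolynomial.algHom_ext
    intro i
    rw [aeval_X, AlgHom.comp_apply]
    unfold dh
    rw [aeval_X]
    refine Fin.cases ?_ (fun i => ?_) i
    · rw [Fin.cons_zero, Fin.cons_zero, map_one]
    · rw [Fin.cons_succ, Fin.cons_succ, aeval_X]
  rw [h]
  rfl

end hom

theorem pf_CHN : Pool.Agent.H18.EDB.T_CHN := by
  classical
  intro ρ k K _ _ _ _ μ z hρ htr halg
  obtain ⟨n, rfl⟩ : ∃ n, ρ = n + 1 := ⟨ρ - 1, by omega⟩
  have htb := tb_gen μ halg htr
  have hμ := htb.1
  obtain ⟨q, hq0, hq1⟩ : ∃ q : Polynomial (Po (n + 1) k), q ≠ 0 ∧ vl μ z q = 0 := by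
    have halg' : Algebra.IsAlgebraic (Algebra.adjoin k (Set.range μ)) K := htb.isAlgebraic
    obtain ⟨g, hg0, hg⟩ := halg'.isAlgebraic z
    let e : Algebra.adjoin k (Set.range μ) ≃+* Po (n + 1) k :=
      (hμ.aevalEquiv : MvPolynomial (Fin (n + 1)) k ≃ₐ[k]
        Algebra.adjoin k (Set.range μ)).symm.toRingEquiv
    refine ⟨g.map e.toRingHom, ?_, ?_⟩
    · rw [Ne, Polynomial.map_eq_zero_iff e.injective]
      exact hg0
    · rw [← hg]
      unfold vl
      rw [Polynomial.coe_eval₂RingHom, Polynomial.aeval_def, Polynomial.eval₂_map]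
      congr 1
      apply RingHom.ext
      intro c
      have h1 : hμ.aevalEquiv (e c) = c := hμ.aevalEquiv.apply_symm_apply c
      have h2 := congrArg Subtype.val h1
      rw [hμ.aevalEquiv_apply_coe] at h2
      exact h2
  obtain ⟨p, hp, hr⟩ := exists_irr ⟨q, hq0, hq1⟩
  have hE : 1 ≤ p.natDegree := Nat.one_le_iff_ne_zero.2 (natDegree_pos hμ hp.ne_zero hr)
  -- the degree
  obtain ⟨j0, hj0, hj0'⟩ := Finset.exists_mem_eq_sup (Finset.range (p.natDegree + 1))
    ⟨0, Finset.mem_range.2 (Nat.succ_pos _)⟩ (fun j => (p.coeff j).totalDegree)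
  set Y := (Finset.range (p.natDegree + 1)).sup (fun j => (p.coeff j).totalDegree) with hYdef
  have hY : ∀ j, (p.coeff j).totalDegree ≤ Y := by
    intro j
    by_cases hj : j ≤ p.natDegree
    · exact Finset.le_sup (f := fun j => (p.coeff j).totalDegree)
        (Finset.mem_range.2 (Nat.lt_succ_of_le hj))
    · rw [Polynomial.coeff_eq_zero_of_natDegree_lt (by omega), totalDegree_zero]
      exact Nat.zero_le _
  have hlp : p.leadingCoeff ≠ 0 := Polynomial.leadingCoeff_ne_zero.2 hp.ne_zero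
  -- a coefficient of degree `Y`
  obtain ⟨j1, hj1, hj1', hj1''⟩ : ∃ j1, j1 ≤ p.natDegree ∧ (p.coeff j1).totalDegree = Y ∧
      p.coeff j1 ≠ 0 := by
    have hj1 : j0 ≤ p.natDegree := Nat.lt_succ_iff.1 (Finset.mem_range.1 hj0)
    by_cases hYz : Y = 0
    · refine ⟨p.natDegree, le_rfl, ?_, hlp⟩
      have h1 := hY p.natDegree
      omega
    · refine ⟨j0, hj1, hj0'.symm, ?_⟩
      intro h
      rw [h, totalDegree_zero] at hj0'
      exact hYz hj0'
  have hsum : ∑ j : Fin (p.natDegree + 1),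
      Polynomial.C (hz Y (p.coeff (p.natDegree - (j : ℕ)))) *
        Polynomial.X ^ (p.natDegree - (j : ℕ)) =
      ∑ j ∈ Finset.range (p.natDegree + 1), Polynomial.C (hz Y (p.coeff j)) *
        Polynomial.X ^ j := by
    rw [Fin.sum_univ_eq_sum_range (fun j => Polynomial.C (hz Y (p.coeff (p.natDegree - j))) *
      Polynomial.X ^ (p.natDegree - j)) (p.natDegree + 1),
      ← Finset.sum_range_reflect (fun j => Polynomial.C (hz Y (p.coeff j)) *
        Polynomial.X ^ j) (p.natDegree + 1)]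
    refine Finset.sum_congr rfl fun j _ => ?_
    rw [Nat.add_sub_cancel]
  have hcoef : ∀ i, (∑ j ∈ Finset.range (p.natDegree + 1), Polynomial.C (hz Y (p.coeff j)) *
      Polynomial.X ^ j).coeff i = if i ∈ Finset.range (p.natDegree + 1) then
        hz Y (p.coeff i) else 0 := by
    intro i
    rw [Polynomial.finsetSum_coeff]
    simp_rw [Polynomial.coeff_C_mul_X_pow]
    rw [Finset.sum_ite_eq]
  have hlz : hz Y (p.coeff p.natDegree) ≠ 0 := by
    intro h
    have h1 : dh (hz Y (p.coeff p.natDegree)) = 0 := by rw [h, map_zero]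
    rw [dh_hz (hY _)] at h1
    exact hlp h1
  have hirr : Irreducible (∑ j ∈ Finset.range (p.natDegree + 1),
      Polynomial.C (hz Y (p.coeff j)) * Polynomial.X ^ j) := by
    refine irr_hz (Y := Y) (j0 := j1) ?_ ?_ ?_
    · intro j
      rw [hcoef]
      split_ifs with h
      · exact hz_hom (hY _)
      · exact isHomogeneous_zero _ _ _
    · have h1 : (∑ j ∈ Finset.range (p.natDegree + 1), Polynomial.C (hz Y (p.coeff j)) *
          Polynomial.X ^ j).map (dh : Po (n + 1 + 1) k →ₐ[k] Po (n + 1) k).toRingHom = p := by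
        apply Polynomial.ext
        intro i
        rw [Polynomial.coeff_map, hcoef]
        split_ifs with h
        · change dh (hz Y (p.coeff i)) = _
          exact dh_hz (hY i)
        · rw [map_zero, Polynomial.coeff_eq_zero_of_natDegree_lt]
          rw [Finset.mem_range] at h
          omega
      rw [h1]
      exact hp
    · rw [hcoef, if_pos (Finset.mem_range.2 (Nat.lt_succ_of_le hj1)), ← hj1']
      exact not_X_dvd hj1''
  refine ⟨p.natDegree, Y, fun j => hz Y (p.coeff (p.natDegree - (j : ℕ))), hE,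
    fun j => hz_hom (hY _), ?_, ?_, ?_, ?_, fun s' => deg_ineq htr halg hp hr hY s',
    deg_ineq' hμ hp hr hj1' hj1''⟩
  · intro Q hQ
    by_contra hcon
    push Not at hcon
    have h1 : Polynomial.C Q ∣ ∑ j ∈ Finset.range (p.natDegree + 1),
        Polynomial.C (hz Y (p.coeff j)) * Polynomial.X ^ j := by
      refine Finset.dvd_sum fun j hj => Dvd.dvd.mul_right ?_ _
      have hj2 : j ≤ p.natDegree := Nat.lt_succ_iff.1 (Finset.mem_range.1 hj)
      have h2 := hcon ⟨p.natDegree - j, by omega⟩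
      change Q ∣ hz Y (p.coeff (p.natDegree - (p.natDegree - j))) at h2
      rw [Nat.sub_sub_self hj2] at h2
      exact map_dvd Polynomial.C h2
    obtain ⟨u, hu⟩ := h1
    have h2 : ¬ IsUnit (Polynomial.C Q) := by
      rw [Polynomial.isUnit_C]
      exact hQ.not_isUnit
    have h3 := (hirr.isUnit_or_isUnit hu).resolve_left h2
    rw [Polynomial.isUnit_iff] at h3
    obtain ⟨u', -, hu'⟩ := h3
    have h4 := hcoef p.natDegree
    rw [if_pos (Finset.mem_range.2 (Nat.lt_succ_self _)), hu, ← hu', ← map_mul,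
      Polynomial.coeff_C, if_neg (by omega)] at h4
    exact hlz h4.symm
  · change hz Y (p.coeff (p.natDegree - 0)) ≠ 0
    rw [Nat.sub_zero]
    exact hlz
  · rw [hsum]
    exact hirr
  · have h1 : ∀ j : Fin (p.natDegree + 1), aeval (Fin.cons 1 μ : Fin (n + 1 + 1) → K)
        (hz Y (p.coeff (p.natDegree - (j : ℕ)))) * z ^ (p.natDegree - (j : ℕ)) =
        (aeval μ : Po (n + 1) k →ₐ[k] K).toRingHom (p.coeff (p.natDegree - (j : ℕ))) *
          z ^ (p.natDegree - (j : ℕ)) := by
      intro j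
      rw [aeval_dh, dh_hz (hY _)]
      rfl
    rw [Finset.sum_congr rfl fun j _ => h1 j,
      Fin.sum_univ_eq_sum_range (fun j => (aeval μ : Po (n + 1) k →ₐ[k] K).toRingHom
        (p.coeff (p.natDegree - j)) * z ^ (p.natDegree - j)) (p.natDegree + 1)]
    have h2 := Finset.sum_range_reflect (fun j => (aeval μ : Po (n + 1) k →ₐ[k] K).toRingHom
      (p.coeff j) * z ^ j) (p.natDegree + 1)
    simp only [Nat.add_sub_cancel] at h2
    rw [h2, ← Polynomial.eval₂_eq_sum_range]
    exact hr

end Pool.Agent.H42.EDB
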