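import Pool.Agent.H18.EDB.Targets2
import Pool.Agent.H35.TX.LNY
import Pool.Agent.H10.TD.LNX

/-!
# Zariski dense orbits in dimension `ν`, row HTN: heights of the points of the hypersurface over
a line (after `Pool.Agent.H75.TX.HTX`)
-/

set_option autoImplicit false

open MvPolynomial
open Pool.Agent.H12.ZD (pmap)
open Pool.Agent.H18.HIT Pool.Agent.H18.HX Pool.Agent.H18.VZ
open Pool.Agent.H8.ZA (HFam Const NA)
open Pool.Agent.H8.TD (lc dg Cop)
open Pool.Agent.H8.TX (hn mxn szn hp)
open Pool.Agent.H2.ED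
open Pool.Agent.H18.TE (lg Gc)
open Pool.Agent.H18.TXB (avn)
open Pool.Agent.H18.EDB

namespace Pool.Agent.H42.EDB

namespace HTN

variable {ν : ℕ}

section max

variable {k : Type} [Field k] (v : AbsoluteValue k ℝ) {n : ℕ}

lemma le_mxn (x : Fin n → k) (i : Fin n) : v (x i) ≤ mxn v x := by
  unfold mxn
  exact (Finset.le_fold_max _).2 (Or.inr ⟨i, Finset.mem_univ i, le_rfl⟩)

lemma mxn_le {x : Fin n → k} {B : ℝ} (hB : 0 ≤ B) (h : ∀ i, v (x i) ≤ B) : mxn v x ≤ B := by
  unfold mxn
  exact (Finset.fold_max_le _).2 ⟨hB, fun i _ => h i⟩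

lemma mxn_nonneg (x : Fin n → k) : 0 ≤ mxn v x := by
  unfold mxn
  exact (Finset.le_fold_max _).2 (Or.inl le_rfl)

lemma le_szn (x : Fin n → k) (i : Fin n) : v (x i) ≤ szn v x := by
  unfold szn
  exact (Finset.le_fold_max _).2 (Or.inr ⟨i, Finset.mem_univ i, le_rfl⟩)

lemma one_le_szn (x : Fin n → k) : 1 ≤ szn v x := by
  unfold szn
  exact (Finset.le_fold_max _).2 (Or.inl le_rfl)

lemma szn_le {x : Fin n → k} {B : ℝ} (hB : 1 ≤ B) (h : ∀ i, v (x i) ≤ B) : szn v x ≤ B := by
  unfold szn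
  exact (Finset.fold_max_le _).2 ⟨hB, fun i _ => h i⟩

lemma mxn_pos {x : Fin n → k} {i : Fin n} (hi : x i ≠ 0) : 0 < mxn v x :=
  (v.pos hi).trans_le (le_mxn v x i)

/-- affine and projective sizes -/
lemma mxn_af {y : Fin (ν + 2) → k} (hy : y 1 ≠ 0) : mxn v y = v (y 1) * szn v (af y) := by
  have h1 : 0 < v (y 1) := v.pos hy
  have haf : ∀ j, v (y j) = v (y 1) * v (af y j) := by
    intro j
    rw [← map_mul]
    show v (y j) = v (y 1 * (y j / y 1))
    rw [mul_div_cancel₀ _ hy]
  refine le_antisymm (mxn_le v ?_ fun j => ?_) ?_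
  · exact mul_nonneg h1.le (zero_le_one.trans (one_le_szn v _))
  · rw [haf j]
    exact mul_le_mul_of_nonneg_left (le_szn v _ j) h1.le
  · rw [mul_comm, ← le_div_iff₀ h1]
    refine szn_le v ?_ fun j => ?_
    · rw [le_div_iff₀ h1, one_mul]
      exact le_mxn v y 1
    · rw [le_div_iff₀ h1, mul_comm, ← haf j]
      exact le_mxn v y j

end max

section fin

variable {K : IntermediateField ℚ Qb} (F : HFam K)

lemma mxn_log_fin {n : ℕ} {x : Fin n → Qb} {j : Fin n} (hj : x j ≠ 0) :
    (Function.support fun i => Real.log (mxn (F.abv i) x)).Finite := by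
  classical
  have hfin : (⋃ l ∈ Finset.univ.filter (fun l : Fin n => x l ≠ 0),
      {i | F.abv i (x l) ≠ 1}).Finite := by
    apply Set.Finite.biUnion (Finset.finite_toSet _)
    intro l hl
    exact F.finite (x l) (Finset.mem_filter.1 (Finset.mem_coe.1 hl)).2
  refine hfin.subset fun i hi => ?_
  by_contra hcon
  apply hi
  have h1 : ∀ l, x l ≠ 0 → F.abv i (x l) = 1 := by
    intro l hl
    by_contra hne
    apply hcon
    rw [Set.mem_iUnion₂]
    exact ⟨l, Finset.mem_filter.2 ⟨Finset.mem_univ _, hl⟩, hne⟩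
  have h2 : mxn (F.abv i) x = 1 := by
    refine le_antisymm (mxn_le _ zero_le_one fun l => ?_) ?_
    · by_cases hl : x l = 0
      · rw [hl, map_zero]
        exact zero_le_one
      · exact (h1 l hl).le
    · rw [← h1 j hj]
      exact le_mxn _ x j
  simp only [h2, Real.log_one]

/-- the height of the affine point -/
lemma hn_af {y : Fin (ν + 2) → Qb} (hy : y 1 ≠ 0) (hK : y 1 ∈ K) : hn F (af y) = hp F y := by
  have hlogy : (Function.support fun i => Real.log (F.abv i (y 1))).Finite :=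
    (F.finite (y 1) hy).subset fun i hi h1 => hi (by simp only [h1, Real.log_one])
  have h1 : ∀ i, Real.log (szn (F.abv i) (af y)) =
      Real.log (mxn (F.abv i) y) - Real.log (F.abv i (y 1)) := by
    intro i
    rw [mxn_af (F.abv i) hy, Real.log_mul ((F.abv i).pos hy).ne'
      (zero_lt_one.trans_le (one_le_szn _ _)).ne', add_sub_cancel_left]
  unfold hn hp
  simp only [h1]
  rw [finsum_sub_distrib (mxn_log_fin F hy) hlogy, F.prod _ hK hy, sub_zero]

lemma const_max (c : Qb) : Const F fun i => max 1 (F.abv i c) := by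
  refine ⟨fun i => le_max_left _ _, ?_⟩
  by_cases hc : c = 0
  · have : {i | max 1 (F.abv i c) ≠ 1} = ∅ := by
      ext i
      simp [hc]
    rw [this]
    exact Set.finite_empty
  · exact (F.finite c hc).subset fun i hi h1 => hi (by rw [h1, max_self])

lemma const_prodS {ι : Type} (s : Finset ι) (c : ι → Qb) :
    Const F fun i => ∏ j ∈ s, max 1 (F.abv i (c j)) := by
  classical
  induction s using Finset.induction_on with
  | empty =>
    simp only [Finset.prod_empty]
    exact Const.one F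
  | insert a s ha ih =>
    simp only [Finset.prod_insert ha]
    exact (const_max F (c a)).mul ih

end fin

section poly

variable {k : Type} [Field k]

/-- the leading monomial -/
lemma mon_coeff {P : Po (ν + 2) k} {r : ℕ} (h : Hyp P r) : coeff (Finsupp.single 0 r) P = 1 := by
  have hm : (finSuccEquiv k (ν + 1) P).coeff (finSuccEquiv k (ν + 1) P).natDegree = 1 := h.mon
  have h1 : coeff (Finsupp.cons (finSuccEquiv k (ν + 1) P).natDegree 0) P = 1 := by
    rw [← finSuccEquiv_coeff_coeff, hm]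
    exact coeff_zero_one
  have h2 := h.hom (d := Finsupp.cons (finSuccEquiv k (ν + 1) P).natDegree 0)
    (by rw [h1]; exact one_ne_zero)
  have h3 : (Finsupp.cons (finSuccEquiv k (ν + 1) P).natDegree 0 : Fin (ν + 2) →₀ ℕ) =
      Finsupp.single 0 (finSuccEquiv k (ν + 1) P).natDegree := by
    ext j
    refine Fin.cases ?_ (fun j => ?_) j
    · rw [Finsupp.cons_zero, Finsupp.single_eq_same]
    · rw [Finsupp.cons_succ, Finsupp.single_eq_of_ne (Fin.succ_ne_zero j)]
      rfl
  rw [h3] at h1 h2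
  have h4 : (finSuccEquiv k (ν + 1) P).natDegree = r := by
    rw [← h2, Finsupp.weight_single]
    simp
  rwa [h4] at h1

/-- the other monomials have smaller degree in the first variable -/
lemma sup_lt {P : Po (ν + 2) k} {r : ℕ} (h : Hyp P r) {m : Fin (ν + 2) →₀ ℕ}
    (hm : m ∈ (P - X 0 ^ r).support) :
    m 0 < r ∧ m 0 + ∑ i : Fin (ν + 1), m i.succ = r := by
  classical
  have hX : (X 0 ^ r : Po (ν + 2) k) = monomial (Finsupp.single 0 r) 1 := X_pow_eq_monomial
  have hhom : (P - X 0 ^ r).IsHomogeneous r := by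
    refine h.hom.sub ?_
    have := (isHomogeneous_X k (0 : Fin (ν + 2))).pow r
    rwa [one_mul] at this
  have h1 := hhom (mem_support_iff.1 hm)
  have h2 : ∑ i : Fin (ν + 2), m i = r := by
    rw [← h1, Finsupp.weight_apply, Finsupp.sum_fintype _ _ (by simp)]
    simp
  rw [Fin.sum_univ_succ] at h2
  refine ⟨?_, h2⟩
  by_contra hcon
  have h3 : m 0 = r := by omega
  have h4 : ∑ i : Fin (ν + 1), m i.succ = 0 := by omega
  have h5 : m = Finsupp.single 0 r := by
    ext j
    refine Fin.cases ?_ (fun j => ?_) j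
    · rw [Finsupp.single_eq_same, h3]
    · rw [Finsupp.single_eq_of_ne (Fin.succ_ne_zero j)]
      exact (Finset.sum_eq_zero_iff.1 h4) j (Finset.mem_univ _)
  apply mem_support_iff.1 hm
  rw [coeff_sub, hX, coeff_monomial, h5, if_pos rfl, mon_coeff h, sub_self]

/-- one term -/
lemma term_le {P : Po (ν + 2) k} {r : ℕ} (h : Hyp P r) {m : Fin (ν + 2) →₀ ℕ}
    (hm : m ∈ (P - X 0 ^ r).support) (v : AbsoluteValue k ℝ) (x : Fin (ν + 1) → k) (u : k)
    (hu : mxn v x ≤ v u) :
    v (coeff m (P - X 0 ^ r) * ∏ i, (Fin.cons u x : Fin (ν + 2) → k) i ^ m i) ≤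
      max 1 (v (coeff m (P - X 0 ^ r))) * (v u ^ (r - 1) * mxn v x) := by
  obtain ⟨h1, h2⟩ := sup_lt h hm
  have hM := mxn_nonneg v x
  have hu0 := v.nonneg u
  rw [map_mul, map_prod, Fin.prod_univ_succ, Fin.cons_zero, map_pow]
  refine mul_le_mul (le_max_right _ _) ?_ ?_ (zero_le_one.trans (le_max_left _ _))
  · have h3 : ∏ i : Fin (ν + 1), v ((Fin.cons u x : Fin (ν + 2) → k) i.succ ^ m i.succ) ≤
        ∏ i : Fin (ν + 1), mxn v x ^ m i.succ := by
      refine Finset.prod_le_prod (fun i _ => v.nonneg _) fun i _ => ?_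
      rw [Fin.cons_succ, map_pow]
      exact pow_le_pow_left₀ (v.nonneg _) (le_mxn v x i) _
    rw [Finset.prod_pow_eq_pow_sum] at h3
    have h4 : ∑ i : Fin (ν + 1), m i.succ = (r - 1 - m 0) + 1 := by omega
    calc v u ^ m 0 * ∏ i : Fin (ν + 1), v ((Fin.cons u x : Fin (ν + 2) → k) i.succ ^ m i.succ)
        ≤ v u ^ m 0 * mxn v x ^ ((r - 1 - m 0) + 1) := by
          rw [← h4]
          exact mul_le_mul_of_nonneg_left h3 (pow_nonneg hu0 _)
      _ ≤ v u ^ m 0 * (v u ^ (r - 1 - m 0) * mxn v x) := by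
          rw [pow_succ]
          refine mul_le_mul_of_nonneg_left (mul_le_mul_of_nonneg_right ?_ hM) (pow_nonneg hu0 _)
          exact pow_le_pow_left₀ hM hu _
      _ = v u ^ (r - 1) * mxn v x := by
          rw [← mul_assoc, ← pow_add]
          congr 2
          omega
  · exact mul_nonneg (pow_nonneg hu0 _) (Finset.prod_nonneg fun i _ => v.nonneg _)

/-- the size of the first coordinate -/
lemma size_le {P : Po (ν + 2) k} {r : ℕ} (h : Hyp P r) (v : AbsoluteValue k ℝ) (x : Fin (ν + 1) → k) (u : k)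
    (h0 : eval (Fin.cons u x : Fin (ν + 2) → k) P = 0) (C : ℝ) (hC : 1 ≤ C)
    (hsum : ∀ B : ℝ, 0 ≤ B → v (∑ m ∈ (P - X 0 ^ r).support, coeff m (P - X 0 ^ r) *
      ∏ i, (Fin.cons u x : Fin (ν + 2) → k) i ^ m i) ≤ C * B ∨ ∃ m ∈ (P - X 0 ^ r).support,
      max 1 (v (coeff m (P - X 0 ^ r))) * B < v (coeff m (P - X 0 ^ r) *
        ∏ i, (Fin.cons u x : Fin (ν + 2) → k) i ^ m i)) :
    v u ≤ C * mxn v x := by
  have hM := mxn_nonneg v x
  rcases le_total (v u) (mxn v x) with hu | hu
  · exact hu.trans (le_mul_of_one_le_left hM hC)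
  have hB : 0 ≤ v u ^ (r - 1) * mxn v x := mul_nonneg (pow_nonneg (v.nonneg _) _) hM
  rcases hsum _ hB with h1 | ⟨m, hm, h1⟩
  · have h2 : u ^ r = - ∑ m ∈ (P - X 0 ^ r).support, coeff m (P - X 0 ^ r) *
        ∏ i, (Fin.cons u x : Fin (ν + 2) → k) i ^ m i := by
      rw [← eval_eq', map_sub, h0, map_pow, eval_X, Fin.cons_zero]
      ring
    rcases Nat.eq_zero_or_pos r with hr | hr
    · exfalso
      subst hr
      have h3 : (P - X 0 ^ 0).support = ∅ := by
        by_contra hne
        obtain ⟨m, hm⟩ := Finset.nonempty_iff_ne_empty.2 hne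
        exact absurd (sup_lt h hm).1 (Nat.not_lt_zero _)
      rw [h3, Finset.sum_empty, neg_zero, pow_zero] at h2
      exact one_ne_zero h2
    · rcases eq_or_lt_of_le (v.nonneg u) with hu0 | hu0
      · rw [← hu0]
        exact mul_nonneg (zero_le_one.trans hC) hM
      · have h3 : v u ^ r ≤ C * (v u ^ (r - 1) * mxn v x) := by
          rw [← map_pow, h2, map_neg_eq_map]
          exact h1
        have h4 : v u ^ r = v u ^ (r - 1) * v u := by
          rw [← pow_succ]
          congr 1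
          omega
        rw [h4] at h3
        have h5 : v u ^ (r - 1) * v u ≤ v u ^ (r - 1) * (C * mxn v x) := by
          refine h3.trans (le_of_eq ?_)
          ring
        exact le_of_mul_le_mul_left h5 (pow_pos hu0 _)
  · exact absurd (term_le h hm v x u hu) (not_le.2 h1)

end poly

/-- the two sizes of a point over a line -/
lemma sizes {K : IntermediateField ℚ Qb} (F : HFam K) {P : Po (ν + 2) Qb} {r : ℕ} (h : Hyp P r) :
    ∃ C : F.ι → ℝ, Const F C ∧ ∀ i (x : Fin (ν + 1) → Qb) (u : Qb),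
      eval (Fin.cons u x : Fin (ν + 2) → Qb) P = 0 → F.abv i u ≤ C i * mxn (F.abv i) x := by
  classical
  obtain ⟨s, hs⟩ : ∃ s, s = (P - X 0 ^ r).support := ⟨_, rfl⟩
  obtain ⟨c, hc⟩ : ∃ c : (Fin (ν + 2) →₀ ℕ) → Qb, c = fun m => coeff m (P - X 0 ^ r) := ⟨_, rfl⟩
  have hA : Const F fun i => if i ∈ F.arch then (s.card : ℝ) + 1 else 1 := by
    refine ⟨fun i => ?_, F.arch.finite_toSet.subset fun i hi => ?_⟩
    · split_ifs
      · have : (0 : ℝ) ≤ s.card := Nat.cast_nonneg _
        linarith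
      · exact le_rfl
    · by_contra hcon
      exact hi (if_neg hcon)
  refine ⟨_, hA.mul (const_prodS F s c), fun i x u h0 => ?_⟩
  have hprod : ∀ m ∈ s, max 1 (F.abv i (c m)) ≤ ∏ j ∈ s, max 1 (F.abv i (c j)) := fun m hm =>
    Pool.Agent.H10.TD.le_prodR s (fun j => max 1 (F.abv i (c j))) (fun j _ => le_max_left _ _) hm
  have hprod1 : 1 ≤ ∏ j ∈ s, max 1 (F.abv i (c j)) :=
    Pool.Agent.H10.TD.one_le_prodR s _ fun j _ => le_max_left _ _
  refine size_le h (F.abv i) x u h0 _ ((hA.mul (const_prodS F s c)).one_le i) fun B hB => ?_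
  by_cases hcon : ∃ m ∈ (P - X 0 ^ r).support,
      max 1 (F.abv i (coeff m (P - X 0 ^ r))) * B < F.abv i (coeff m (P - X 0 ^ r) *
        ∏ l, (Fin.cons u x : Fin (ν + 2) → Qb) l ^ m l)
  · exact Or.inr hcon
  left
  push Not at hcon
  rw [← hs]
  have hterm : ∀ m ∈ s, F.abv i (coeff m (P - X 0 ^ r) *
      ∏ l, (Fin.cons u x : Fin (ν + 2) → Qb) l ^ m l) ≤
      (∏ j ∈ s, max 1 (F.abv i (c j))) * B := by
    intro m hm
    have h1 := hprod m hm
    rw [hc] at h1
    refine (hcon m (hs ▸ hm)).trans (mul_le_mul_of_nonneg_right ?_ hB)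
    rw [hc]
    exact h1
  by_cases ha : i ∈ F.arch
  · simp only [if_pos ha]
    refine ((F.abv i).sum_le _ _).trans ((Finset.sum_le_sum hterm).trans ?_)
    rw [Finset.sum_const, nsmul_eq_mul, mul_assoc]
    refine mul_le_mul_of_nonneg_right (by linarith) ?_
    exact mul_nonneg (zero_le_one.trans hprod1) hB
  · simp only [if_neg ha]
    rw [one_mul]
    exact Pool.Agent.H10.TD.na_sum (F.abv i) (F.na i ha) s _ _
      (mul_nonneg (zero_le_one.trans hprod1) hB) hterm

end HTN

open HTN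

theorem pf_HTN : T_HTN := by
  classical
  intro ν P r w v hP hv hw K₀ F hK
  obtain ⟨C, hC, hCb⟩ := sizes F hP
  obtain ⟨p, hpd0⟩ : ∃ p : Fin (ν + 1) → Polynomial Qb, p = fun i =>
    Polynomial.C (w i) + Polynomial.X * Polynomial.C (v i) := ⟨_, rfl⟩
  have hpe : ∀ (t : Qb) i, (p i).eval t = w i + t * v i := by
    intro t i
    rw [hpd0]
    simp only [Polynomial.eval_add, Polynomial.eval_C, Polynomial.eval_mul, Polynomial.eval_X]
  have hpc : ∀ i, (p i).coeff 1 = v i := by
    intro i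
    rw [hpd0]
    simp [Polynomial.coeff_C]
  have hpd : ∀ i, (p i).natDegree ≤ 1 := by
    intro i
    rw [hpd0]
    refine (Polynomial.natDegree_add_le _ _).trans (max_le ?_ ?_)
    · rw [Polynomial.natDegree_C]
      exact Nat.zero_le _
    · refine (Polynomial.natDegree_mul_le).trans ?_
      rw [Polynomial.natDegree_C, add_zero]
      exact Polynomial.natDegree_X_le
  obtain ⟨c0, hc0⟩ := Pool.Agent.H35.TX.pf_LNY ν 1 p hpd (by simpa only [hpc] using hv)
    (by simpa only [hpe] using hw) K₀ F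
  refine ⟨c0 + ∑ᶠ i, Real.log (C i), fun t u ht ht0 hev => ?_⟩
  obtain ⟨x, hx⟩ : ∃ x : Fin (ν + 1) → Qb, x = fun i => w i + (t : Qb) * v i := ⟨_, rfl⟩
  rw [← hx] at hev
  rw [← hx]
  have hx0 : x 0 ≠ 0 := by rw [hx]; exact ht0
  have hy1 : (Fin.cons u x : Fin (ν + 2) → Qb) 1 = x 0 := rfl
  have h1 : hn F (af (Fin.cons u x : Fin (ν + 2) → Qb)) = hp F (Fin.cons u x : Fin (ν + 2) → Qb) := by
    refine hn_af F (by rw [hy1]; exact hx0) ?_
    rw [hy1, hx]
    exact hK t
  have h2 := hc0 t ht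
  have h3 : (fun i => (p i).eval (t : Qb)) = x := by
    rw [hx]
    funext i
    exact hpe _ i
  rw [h3] at h2
  have hle : ∀ i, |Real.log (mxn (F.abv i) (Fin.cons u x : Fin (ν + 2) → Qb)) -
      Real.log (mxn (F.abv i) x)| ≤ Real.log (C i) := by
    intro i
    have hxy : mxn (F.abv i) x ≤ mxn (F.abv i) (Fin.cons u x : Fin (ν + 2) → Qb) :=
      mxn_le _ (mxn_nonneg _ _) fun j => le_mxn (F.abv i) (Fin.cons u x : Fin (ν + 2) → Qb) j.succ
    refine Pool.Agent.H10.TD.log_abs (hC.one_le i) (mxn_pos _ (i := 1) ?_) (mxn_pos _ hx0) ?_ ?_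
    · rw [hy1]
      exact hx0
    · refine mxn_le _ (mul_nonneg (hC.pos i).le (mxn_nonneg _ _)) fun j => ?_
      refine Fin.cases ?_ (fun j => ?_) j
      · rw [Fin.cons_zero]
        exact hCb i x u hev
      · rw [Fin.cons_succ]
        exact (le_mxn _ x j).trans (le_mul_of_one_le_left (mxn_nonneg _ _) (hC.one_le i))
    · exact hxy.trans (le_mul_of_one_le_left (mxn_nonneg _ _) (hC.one_le i))
  have hyfin : (Function.support fun i =>
      Real.log (mxn (F.abv i) (Fin.cons u x : Fin (ν + 2) → Qb))).Finite :=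
    mxn_log_fin F (j := 1) (by rw [hy1]; exact hx0)
  have hxfin := mxn_log_fin F hx0
  have hCfin : (Function.support fun i => Real.log (C i)).Finite := hC.log_finite
  have hup : hp F (Fin.cons u x : Fin (ν + 2) → Qb) ≤ hp F x + ∑ᶠ i, Real.log (C i) := by
    unfold hp
    rw [← finsum_add_distrib hxfin hCfin]
    apply finsum_le_finsum' hyfin ((hxfin.union hCfin).subset (Function.support_add _ _))
    intro i
    have := (abs_le.1 (hle i)).2
    linarith
  have hlo : hp F x ≤ hp F (Fin.cons u x : Fin (ν + 2) → Qb) + ∑ᶠ i, Real.log (C i) := by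
    unfold hp
    rw [← finsum_add_distrib hyfin hCfin]
    apply finsum_le_finsum' hxfin ((hyfin.union hCfin).subset (Function.support_add _ _))
    intro i
    have := (abs_le.1 (hle i)).1
    linarith
  rw [h1]
  rw [Nat.cast_one, one_mul] at h2
  rw [abs_le] at h2 ⊢
  constructor <;> linarith [h2.1, h2.2]

end Pool.Agent.H42.EDB
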