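import Pool.Agent.H98.TD.ADJ
import Pool.Agent.H14.TD.EXT
import Pool.Agent.H39.TD.RED

/-!
# Minimal equations and linear changes of the coordinates (row CHN of edb_modules, part a)
-/

set_option autoImplicit false

open MvPolynomial
open Pool.Agent.H18.HIT (Po)
open Pool.Agent.H8.TD (lc dg)

namespace Pool.Agent.H42.EDB

section gauss

variable {k K : Type} [Field k] [Field K] [Algebra k K]

/-- the value of a polynomial at `x` and `y` -/
noncomputable def vl {n : ℕ} (x : Fin n → K) (y : K) : Polynomial (Po n k) →+* K :=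
  Polynomial.eval₂RingHom (aeval x : Po n k →ₐ[k] K).toRingHom y

theorem vl_C {n : ℕ} (x : Fin n → K) (y : K) (c : Po n k) :
    vl x y (Polynomial.C c) = aeval x c := by
  unfold vl
  rw [Polynomial.coe_eval₂RingHom, Polynomial.eval₂_C]
  rfl

theorem vl_X {n : ℕ} (x : Fin n → K) (y : K) :
    vl x y (Polynomial.X : Polynomial (Po n k)) = y := by
  unfold vl
  rw [Polynomial.coe_eval₂RingHom, Polynomial.eval₂_X]

theorem tb_gen {n : ℕ} (t : Fin n → K)
    (halg : Algebra.IsAlgebraic (IntermediateField.adjoin k (Set.range t)) K)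
    (htr : Algebra.trdeg k K = n) : IsTranscendenceBasis k t := by
  have h1 : Algebra.IsAlgebraic (Algebra.adjoin k (Set.range t)) K :=
    Pool.Agent.H14.TD.alg_trans (Set.range t) t halg (fun i => isAlgebraic_algebraMap
      (⟨t i, Algebra.subset_adjoin ⟨i, rfl⟩⟩ : Algebra.adjoin k (Set.range t)))
  exact Algebra.IsAlgebraic.isTranscendenceBasis_of_le_trdeg_of_finite k t
    (by rw [htr]; simp)

/-- the map to the field of rational functions -/
noncomputable def fr {n : ℕ} {x : Fin n → K} (hx : AlgebraicIndependent k x) :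
    Po n k →+* IntermediateField.adjoin k (Set.range x) :=
  (hx.aevalEquivField : FractionRing (Po n k) ≃ₐ[k]
    IntermediateField.adjoin k (Set.range x)).toRingEquiv.toRingHom.comp
    (algebraMap (Po n k) (FractionRing (Po n k)))

theorem fr_val {n : ℕ} {x : Fin n → K} (hx : AlgebraicIndependent k x) (c : Po n k) :
    ((fr hx c : IntermediateField.adjoin k (Set.range x)) : K) = aeval x c :=
  hx.aevalEquivField_algebraMap_apply_coe c

theorem vl_map {n : ℕ} {x : Fin n → K} (hx : AlgebraicIndependent k x) (y : K)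
    (q : Polynomial (Po n k)) : Polynomial.aeval y (q.map (fr hx)) = vl x y q := by
  unfold vl
  rw [Polynomial.coe_eval₂RingHom, Polynomial.aeval_def, Polynomial.eval₂_map]
  congr 1
  apply RingHom.ext
  intro c
  exact fr_val hx c

theorem natDegree_pos {n : ℕ} {x : Fin n → K} (hx : AlgebraicIndependent k x) {y : K}
    {q : Polynomial (Po n k)} (hq : q ≠ 0) (hr : vl x y q = 0) : q.natDegree ≠ 0 := by
  intro h0
  rw [Polynomial.natDegree_eq_zero] at h0
  obtain ⟨c, rfl⟩ := h0
  rw [vl_C] at hr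
  rw [algebraicIndependent_iff_injective_aeval] at hx
  exact hq (by rw [(map_eq_zero_iff _ hx).1 hr, Polynomial.C_0])

/-- Gauss: the equation stays irreducible over the field of rational functions -/
theorem irr_map {n : ℕ} {x : Fin n → K} (hx : AlgebraicIndependent k x) {y : K}
    {q : Polynomial (Po n k)} (hq : Irreducible q) (hr : vl x y q = 0) :
    Irreducible (q.map (fr hx)) := by
  have h0 := natDegree_pos hx hq.ne_zero hr
  have h1 : q.IsPrimitive := hq.isPrimitive h0
  have h2 := (h1.irreducible_iff_irreducible_map_fraction_map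
    (K := FractionRing (Po n k))).1 hq
  let e : FractionRing (Po n k) ≃+* IntermediateField.adjoin k (Set.range x) :=
    (hx.aevalEquivField : FractionRing (Po n k) ≃ₐ[k]
    IntermediateField.adjoin k (Set.range x)).toRingEquiv
  have h3 : q.map (fr hx) = Polynomial.mapEquiv e
      (q.map (algebraMap (Po n k) (FractionRing (Po n k)))) := by
    rw [Polynomial.mapEquiv_apply, Polynomial.map_map]
    rfl
  rw [h3]
  exact (MulEquiv.irreducible_iff (Polynomial.mapEquiv e)).2 h2

theorem min_deg {n : ℕ} {x : Fin n → K} (hx : AlgebraicIndependent k x) {y : K}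
    {q : Polynomial (Po n k)} (hq : Irreducible q) (hr : vl x y q = 0) :
    IsIntegral (IntermediateField.adjoin k (Set.range x)) y ∧
    (minpoly (IntermediateField.adjoin k (Set.range x)) y).natDegree = q.natDegree := by
  have h1 := irr_map hx hq hr
  have h2 : Polynomial.aeval y (q.map (fr hx)) = 0 := by rw [vl_map, hr]
  refine ⟨(isAlgebraic_iff_isIntegral).1 ⟨_, h1.ne_zero, h2⟩, ?_⟩
  rw [← minpoly.eq_of_irreducible h1 h2, Polynomial.natDegree_mul_C (inv_ne_zero
    (Polynomial.leadingCoeff_ne_zero.2 h1.ne_zero)), Polynomial.natDegree_map_eq_of_injective]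
  unfold fr
  rw [RingHom.coe_comp]
  exact (hx.aevalEquivField : FractionRing (Po n k) ≃ₐ[k]
    IntermediateField.adjoin k (Set.range x)).injective.comp
    (IsFractionRing.injective (Po n k) (FractionRing (Po n k)))

/-- the kernel of the value is generated by the equation -/
theorem dvd_ker {n : ℕ} {x : Fin n → K} (hx : AlgebraicIndependent k x) {y : K}
    {q g : Polynomial (Po n k)} (hq : Irreducible q) (hr : vl x y q = 0) (hg : vl x y g = 0) :
    q ∣ g := by
  have h0 := natDegree_pos hx hq.ne_zero hr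
  have h1 : q.IsPrimitive := hq.isPrimitive h0
  have h2 := irr_map hx hq hr
  have h3 : Polynomial.aeval y (q.map (fr hx)) = 0 := by rw [vl_map, hr]
  have h4 : Polynomial.aeval y (g.map (fr hx)) = 0 := by rw [vl_map, hg]
  have h5 : q.map (fr hx) ∣ g.map (fr hx) := by
    refine Dvd.dvd.trans ?_ (minpoly.dvd _ _ h4)
    rw [← minpoly.eq_of_irreducible h2 h3]
    exact dvd_mul_right _ _
  let e : FractionRing (Po n k) ≃+* IntermediateField.adjoin k (Set.range x) :=
    (hx.aevalEquivField : FractionRing (Po n k) ≃ₐ[k]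
    IntermediateField.adjoin k (Set.range x)).toRingEquiv
  have h6 : ∀ p : Polynomial (Po n k), p.map (fr hx) = Polynomial.mapEquiv e
      (p.map (algebraMap (Po n k) (FractionRing (Po n k)))) := by
    intro p
    rw [Polynomial.mapEquiv_apply, Polynomial.map_map]
    rfl
  rw [h6, h6, map_dvd_iff (Polynomial.mapEquiv e)] at h5
  exact h1.dvd_of_fraction_map_dvd_fraction_map h5

/-- existence of the equation -/
theorem exists_irr {n : ℕ} {x : Fin n → K} {y : K}
    (hex : ∃ q : Polynomial (Po n k), q ≠ 0 ∧ vl x y q = 0) :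
    ∃ q : Polynomial (Po n k), Irreducible q ∧ vl x y q = 0 := by
  obtain ⟨q, hq, hr⟩ := hex
  have hP : (RingHom.ker (vl (k := k) x y)).IsPrime := RingHom.ker_isPrime _
  have h1 : q ∈ RingHom.ker (vl (k := k) x y) := hr
  obtain ⟨f, hf, u, hu⟩ := WfDvdMonoid.exists_factors q hq
  have h2 : f.prod ∈ RingHom.ker (vl (k := k) x y) := by
    have h3 : f.prod * (u : Polynomial (Po n k)) ∈ RingHom.ker (vl (k := k) x y) := by
      rw [hu]
      exact h1
    rcases hP.mem_or_mem h3 with h4 | h4
    · exact h4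
    · exact absurd (Ideal.eq_top_of_isUnit_mem _ h4 u.isUnit) hP.ne_top
  rw [Ideal.IsPrime.multiset_prod_mem_iff_exists_mem hP] at h2
  obtain ⟨p, hp, hp'⟩ := h2
  exact ⟨p, hf p hp, hp'⟩

end gauss

section lin

variable {k K : Type} [Field k] [Field K] [Algebra k K] {n : ℕ}

/-- the substitution, forth -/
noncomputable def Ph (N : Matrix (Fin (n + 1)) (Fin (n + 1)) k) :
    Polynomial (Po (n + 1) k) →+* Polynomial (Po (n + 1) k) :=
  Polynomial.eval₂RingHom (aeval (fun i => Polynomial.C (C (N i 0)) * Polynomial.X +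
      Polynomial.C (∑ j : Fin n, C (N i j.succ) * X j.succ)) :
      Po (n + 1) k →ₐ[k] Polynomial (Po (n + 1) k)).toRingHom (Polynomial.C (X 0))

/-- the substitution, back -/
noncomputable def Ps (M : Matrix (Fin (n + 1)) (Fin (n + 1)) k) :
    Polynomial (Po (n + 1) k) →+* Polynomial (Po (n + 1) k) :=
  Polynomial.eval₂RingHom (aeval (Fin.cons Polynomial.X (fun j : Fin n =>
      Polynomial.C (∑ i, C (M j.succ i) * X i)) : Fin (n + 1) → Polynomial (Po (n + 1) k)) :
      Po (n + 1) k →ₐ[k] Polynomial (Po (n + 1) k)).toRingHom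
      (Polynomial.C (∑ i, C (M 0 i) * X i))

theorem aeval_CC (f : Fin (n + 1) → Polynomial (Po (n + 1) k)) (c : k) :
    aeval f (C c : Po (n + 1) k) = Polynomial.C (C c) := by
  rw [aeval_C, IsScalarTower.algebraMap_apply k (Po (n + 1) k) (Polynomial (Po (n + 1) k)),
    Polynomial.algebraMap_apply, Algebra.algebraMap_self, RingHom.id_apply,
    MvPolynomial.algebraMap_eq]

theorem Ph_X (N : Matrix (Fin (n + 1)) (Fin (n + 1)) k) :
    Ph N Polynomial.X = Polynomial.C (X 0) := by
  unfold Ph
  rw [Polynomial.coe_eval₂RingHom, Polynomial.eval₂_X]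

theorem Ph_CX (N : Matrix (Fin (n + 1)) (Fin (n + 1)) k) (i : Fin (n + 1)) :
    Ph N (Polynomial.C (X i)) = Polynomial.C (C (N i 0)) * Polynomial.X +
      Polynomial.C (∑ j : Fin n, C (N i j.succ) * X j.succ) := by
  unfold Ph
  rw [Polynomial.coe_eval₂RingHom, Polynomial.eval₂_C]
  exact aeval_X _ _

theorem Ph_CC (N : Matrix (Fin (n + 1)) (Fin (n + 1)) k) (c : k) :
    Ph N (Polynomial.C (C c)) = Polynomial.C (C c) := by
  unfold Ph
  rw [Polynomial.coe_eval₂RingHom, Polynomial.eval₂_C]
  exact aeval_CC _ _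

theorem Ps_X (M : Matrix (Fin (n + 1)) (Fin (n + 1)) k) :
    Ps M Polynomial.X = Polynomial.C (∑ i, C (M 0 i) * X i) := by
  unfold Ps
  rw [Polynomial.coe_eval₂RingHom, Polynomial.eval₂_X]

theorem Ps_C0 (M : Matrix (Fin (n + 1)) (Fin (n + 1)) k) :
    Ps M (Polynomial.C (X 0)) = Polynomial.X := by
  unfold Ps
  rw [Polynomial.coe_eval₂RingHom, Polynomial.eval₂_C]
  exact (aeval_X _ _).trans (Fin.cons_zero _ _)

theorem Ps_CS (M : Matrix (Fin (n + 1)) (Fin (n + 1)) k) (j : Fin n) :
    Ps M (Polynomial.C (X j.succ)) = Polynomial.C (∑ i, C (M j.succ i) * X i) := by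
  unfold Ps
  rw [Polynomial.coe_eval₂RingHom, Polynomial.eval₂_C]
  exact (aeval_X _ _).trans (Fin.cons_succ _ _ _)

theorem Ps_CC (M : Matrix (Fin (n + 1)) (Fin (n + 1)) k) (c : k) :
    Ps M (Polynomial.C (C c)) = Polynomial.C (C c) := by
  unfold Ps
  rw [Polynomial.coe_eval₂RingHom, Polynomial.eval₂_C]
  exact aeval_CC _ _

theorem hom_ext {f g : Polynomial (Po (n + 1) k) →+* Polynomial (Po (n + 1) k)}
    (h1 : f Polynomial.X = g Polynomial.X)
    (h2 : ∀ c : k, f (Polynomial.C (C c)) = g (Polynomial.C (C c)))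
    (h3 : ∀ i, f (Polynomial.C (X i)) = g (Polynomial.C (X i))) : f = g :=
  Polynomial.ringHom_ext' (MvPolynomial.ringHom_ext h2 h3) h1

theorem Ps_Ph {M N : Matrix (Fin (n + 1)) (Fin (n + 1)) k} (h : N * M = 1)
    (p : Polynomial (Po (n + 1) k)) : Ps M (Ph N p) = p := by
  have key : (Ps M).comp (Ph N) = RingHom.id _ := by
    apply hom_ext
    · rw [RingHom.comp_apply, Ph_X, Ps_C0, RingHom.id_apply]
    · intro c
      rw [RingHom.comp_apply, Ph_CC, Ps_CC, RingHom.id_apply]
    · intro i
      have h1 : Ps M (Polynomial.C (∑ j : Fin n, C (N i j.succ) * X j.succ)) =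
          ∑ j : Fin n, Polynomial.C (C (N i j.succ)) *
            Polynomial.C (∑ l, C (M j.succ l) * X l) := by
        rw [map_sum Polynomial.C, map_sum (Ps M)]
        refine Finset.sum_congr rfl fun j _ => ?_
        rw [map_mul Polynomial.C, map_mul, Ps_CC, Ps_CS]
      rw [RingHom.comp_apply, Ph_CX, map_add, map_mul, Ps_CC, Ps_X, RingHom.id_apply, h1,
        ← Fin.sum_univ_succ (fun m =>
        (Polynomial.C (C (N i m)) : Polynomial (Po (n + 1) k)) *
          Polynomial.C (∑ l, C (M m l) * X l))]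
      have h2 : ∀ m : Fin (n + 1), (Polynomial.C (C (N i m)) : Polynomial (Po (n + 1) k)) *
          Polynomial.C (∑ l, C (M m l) * X l) =
          Polynomial.C (∑ l, C (N i m * M m l) * X l) := by
        intro m
        rw [← map_mul, Finset.mul_sum]
        congr 1
        refine Finset.sum_congr rfl fun l _ => ?_
        rw [C_mul]
        ring
      rw [Finset.sum_congr rfl fun m _ => h2 m, ← map_sum Polynomial.C, Finset.sum_comm]
      congr 1
      have h3 : ∀ l : Fin (n + 1), ∑ m : Fin (n + 1), (C (N i m * M m l) * X l : Po (n + 1) k) =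
          C ((1 : Matrix (Fin (n + 1)) (Fin (n + 1)) k) i l) * X l := by
        intro l
        rw [← Finset.sum_mul, ← map_sum, ← h]
        rfl
      rw [Finset.sum_congr rfl fun l _ => h3 l, Finset.sum_eq_single i]
      · rw [Matrix.one_apply_eq, C_1, one_mul]
      · intro l _ hl
        rw [Matrix.one_apply_ne (Ne.symm hl), C_0, zero_mul]
      · intro h'
        exact absurd (Finset.mem_univ i) h'
  exact DFunLike.congr_fun key p

theorem Ph_sum {M N : Matrix (Fin (n + 1)) (Fin (n + 1)) k} (h : M * N = 1)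
    (m : Fin (n + 1)) : Ph N (Polynomial.C (∑ i, C (M m i) * X i)) =
      Polynomial.C (C ((1 : Matrix (Fin (n + 1)) (Fin (n + 1)) k) m 0)) * Polynomial.X +
      Polynomial.C (∑ j : Fin n, C ((1 : Matrix (Fin (n + 1)) (Fin (n + 1)) k) m j.succ) *
        X j.succ) := by
  rw [map_sum Polynomial.C, map_sum (Ph N)]
  have h1 : ∀ i : Fin (n + 1), Ph N (Polynomial.C (C (M m i) * X i)) =
      Polynomial.C (C (M m i * N i 0)) * Polynomial.X +
      Polynomial.C (∑ j : Fin n, C (M m i * N i j.succ) * X j.succ) := by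
    intro i
    rw [map_mul Polynomial.C, map_mul, Ph_CC, Ph_CX, mul_add, ← mul_assoc, ← map_mul,
      ← C_mul, ← map_mul, Finset.mul_sum]
    congr 2
    refine Finset.sum_congr rfl fun j _ => ?_
    rw [C_mul]
    ring
  rw [Finset.sum_congr rfl fun i _ => h1 i, Finset.sum_add_distrib, ← Finset.sum_mul,
    ← map_sum, ← map_sum, ← map_sum, Finset.sum_comm]
  have h2 : ∀ l : Fin (n + 1), ∑ i : Fin (n + 1), M m i * N i l =
      (1 : Matrix (Fin (n + 1)) (Fin (n + 1)) k) m l := by
    intro l
    rw [← h]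
    rfl
  rw [h2]
  congr 2
  refine Finset.sum_congr rfl fun j _ => ?_
  rw [← Finset.sum_mul, ← map_sum, h2]

theorem Ph_Ps {M N : Matrix (Fin (n + 1)) (Fin (n + 1)) k} (h : M * N = 1)
    (p : Polynomial (Po (n + 1) k)) : Ph N (Ps M p) = p := by
  have key : (Ph N).comp (Ps M) = RingHom.id _ := by
    apply hom_ext
    · rw [RingHom.comp_apply, Ps_X, RingHom.id_apply, Ph_sum h, Matrix.one_apply_eq, C_1,
        Polynomial.C_1, one_mul]
      have h1 : ∀ j : Fin n, (C ((1 : Matrix (Fin (n + 1)) (Fin (n + 1)) k) 0 j.succ) *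
          X j.succ : Po (n + 1) k) = 0 := by
        intro j
        rw [Matrix.one_apply_ne (Fin.succ_ne_zero j).symm, C_0, zero_mul]
      rw [Finset.sum_congr rfl fun j _ => h1 j, Finset.sum_const_zero, Polynomial.C_0, add_zero]
    · intro c
      rw [RingHom.comp_apply, Ps_CC, Ph_CC, RingHom.id_apply]
    · intro i
      rw [RingHom.comp_apply, RingHom.id_apply]
      refine Fin.cases ?_ (fun j => ?_) i
      · rw [Ps_C0, Ph_X]
      · rw [Ps_CS, Ph_sum h, Matrix.one_apply_ne (Fin.succ_ne_zero j), C_0, Polynomial.C_0,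
          zero_mul, zero_add]
        congr 1
        rw [Finset.sum_eq_single j]
        · rw [Matrix.one_apply_eq, C_1, one_mul]
        · intro l _ hl
          rw [Matrix.one_apply_ne fun h' => hl (Fin.succ_injective _ h').symm, C_0, zero_mul]
        · intro h'
          exact absurd (Finset.mem_univ j) h'
  exact DFunLike.congr_fun key p

/-- the substitution as an automorphism -/
noncomputable def Pe {M N : Matrix (Fin (n + 1)) (Fin (n + 1)) k} (h : M * N = 1)
    (h' : N * M = 1) : Polynomial (Po (n + 1) k) ≃+* Polynomial (Po (n + 1) k) :=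
  RingEquiv.ofRingHom (Ph N) (Ps M) (RingHom.ext fun p => Ph_Ps h p)
    (RingHom.ext fun p => Ps_Ph h' p)

theorem aeval_lin (μ : Fin (n + 1) → K) (s : Fin (n + 1) → k) :
    aeval μ (∑ i, C (s i) * X i : Po (n + 1) k) = lc s μ := by
  rw [map_sum]
  unfold lc
  refine Finset.sum_congr rfl fun i _ => ?_
  rw [map_mul, aeval_C, aeval_X, Algebra.smul_def]

/-- the value after the substitution -/
theorem vl_Ps (M : Matrix (Fin (n + 1)) (Fin (n + 1)) k) (μ : Fin (n + 1) → K) (z : K)
    (g : Polynomial (Po (n + 1) k)) : vl μ z (Ps M g) =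
      vl (Fin.cons z (fun j : Fin n => lc (M j.succ) μ) : Fin (n + 1) → K) (lc (M 0) μ) g := by
  have key : (vl μ z).comp (Ps M) =
      vl (Fin.cons z (fun j : Fin n => lc (M j.succ) μ) : Fin (n + 1) → K) (lc (M 0) μ) := by
    refine Polynomial.ringHom_ext' (MvPolynomial.ringHom_ext (fun c => ?_) fun i => ?_) ?_
    · change vl μ z (Ps M (Polynomial.C (C c))) = vl _ _ (Polynomial.C (C c))
      rw [Ps_CC, vl_C, vl_C, aeval_C, aeval_C]
    · change vl μ z (Ps M (Polynomial.C (X i))) = vl _ _ (Polynomial.C (X i))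
      rw [vl_C, aeval_X]
      refine Fin.cases ?_ (fun j => ?_) i
      · rw [Ps_C0, vl_X, Fin.cons_zero]
      · rw [Ps_CS, vl_C, Fin.cons_succ, aeval_lin]
    · change vl μ z (Ps M Polynomial.X) = vl _ _ Polynomial.X
      rw [Ps_X, vl_C, vl_X, aeval_lin]
  exact DFunLike.congr_fun key g

theorem lc_mem {m : ℕ} {φ : Fin m → K} (E : IntermediateField k K) (h : ∀ i, φ i ∈ E)
    (s : Fin m → k) : lc s φ ∈ E := by
  unfold lc
  exact sum_mem fun i _ => E.smul_mem (h i)

theorem lc_inv {M N : Matrix (Fin (n + 1)) (Fin (n + 1)) k} (h : N * M = 1)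
    (μ : Fin (n + 1) → K) (i : Fin (n + 1)) : lc (N i) (fun m => lc (M m) μ) = μ i := by
  unfold lc
  simp only [Finset.smul_sum, smul_smul]
  rw [Finset.sum_comm]
  have h1 : ∀ l : Fin (n + 1), ∑ m : Fin (n + 1), (N i m * M m l) • μ l =
      ((1 : Matrix (Fin (n + 1)) (Fin (n + 1)) k) i l) • μ l := by
    intro l
    rw [← Finset.sum_smul, ← h]
    rfl
  rw [Finset.sum_congr rfl fun l _ => h1 l, Finset.sum_eq_single i]
  · rw [Matrix.one_apply_eq, one_smul]
  · intro l _ hl
    rw [Matrix.one_apply_ne (Ne.symm hl), zero_smul]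
  · intro h'
    exact absurd (Finset.mem_univ i) h'

/-- the two fields are equal -/
theorem adj_eq {M N : Matrix (Fin (n + 1)) (Fin (n + 1)) k} (h : N * M = 1)
    (μ : Fin (n + 1) → K) (z : K) :
    IntermediateField.adjoin k (insert (lc (M 0) μ) (insert z
      (Set.range fun j : Fin n => lc (M j.succ) μ))) =
    IntermediateField.adjoin k (insert z (Set.range μ)) := by
  have hμm : ∀ i, μ i ∈ IntermediateField.adjoin k (insert z (Set.range μ)) := fun i =>
    IntermediateField.subset_adjoin _ _ (Set.mem_insert_of_mem _ ⟨i, rfl⟩)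
  apply le_antisymm
  · rw [IntermediateField.adjoin_le_iff]
    rintro x (rfl | rfl | ⟨j, rfl⟩)
    · exact lc_mem _ hμm _
    · exact IntermediateField.subset_adjoin _ _ (Set.mem_insert _ _)
    · exact lc_mem _ hμm _
  · rw [IntermediateField.adjoin_le_iff]
    rintro x (rfl | ⟨i, rfl⟩)
    · exact IntermediateField.subset_adjoin _ _ (Set.mem_insert_of_mem _ (Set.mem_insert _ _))
    · rw [SetLike.mem_coe, ← lc_inv h μ i]
      refine lc_mem _ (fun m => ?_) _
      refine Fin.cases ?_ (fun j => ?_) m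
      · exact IntermediateField.subset_adjoin _ _ (Set.mem_insert _ _)
      · exact IntermediateField.subset_adjoin _ _
          (Set.mem_insert_of_mem _ (Set.mem_insert_of_mem _ ⟨j, rfl⟩))

end lin

end Pool.Agent.H42.EDB
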